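import Pool.Agent.Rob.DivZero
import Pool.Agent.Rob.Jac

set_option autoImplicit false

/-!
# Robin eigenvalue of circumscribed domains: gauges with unit gradient
-/

open MeasureTheory Metric Set Filter Topology
open scoped Pointwise

namespace Pool.Agent.RobCirc

open Pool.Agent.Rob

variable {d : ℕ}

/-- a positively homogeneous `1`-Lipschitz function with gradient of norm `1` almost everywhere,
and bounded level sets -/
structure Gau (z : E d → ℝ) (ρ : ℝ) : Prop where
  rpos : 0 < ρ
  lip : LipschitzWith 1 z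
  hom : ∀ t, 0 ≤ t → ∀ x, z (t • x) = t * z x
  grad : ∀ᵐ x : E d, DifferentiableAt ℝ z x ∧ ‖fderiv ℝ z x‖ = 1
  bdd : Bornology.IsBounded {x | z x < ρ}

namespace Gau

variable {z : E d → ℝ} {ρ : ℝ}

theorem zero (H : Gau z ρ) : z 0 = 0 := by
  have := H.hom 0 le_rfl 0
  simpa using this

theorem lower (H : Gau z ρ) : ∃ c : ℝ, 0 < c ∧ ∀ x, c * ‖x‖ ≤ z x := by
  obtain ⟨M, hM, hM'⟩ := H.bdd.subset_ball_lt 0 0
  refine ⟨ρ / M, div_pos H.rpos hM, fun x => ?_⟩
  rcases eq_or_ne x 0 with rfl | hx
  · simp [H.zero]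
  have hn : 0 < ‖x‖ := norm_pos_iff.2 hx
  have h1 : ρ ≤ z ((M / ‖x‖) • x) := by
    by_contra hc
    have h2 := hM' (show (M / ‖x‖) • x ∈ {x | z x < ρ} from not_le.1 hc)
    rw [mem_ball_zero_iff, norm_smul, Real.norm_of_nonneg (by positivity),
      div_mul_cancel₀ _ hn.ne'] at h2
    exact lt_irrefl _ h2
  rw [H.hom _ (by positivity)] at h1
  rw [div_mul_eq_mul_div, div_le_iff₀ hM]
  rw [div_mul_eq_mul_div, le_div_iff₀ hn] at h1
  linarith

theorem nonneg (H : Gau z ρ) (x : E d) : 0 ≤ z x := by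
  obtain ⟨c, hc, h⟩ := H.lower
  exact le_trans (by positivity) (h x)

theorem compact (H : Gau z ρ) (s : ℝ) : IsCompact {x | z x ≤ s} := by
  obtain ⟨c, hc, h⟩ := H.lower
  refine Metric.isCompact_of_isClosed_isBounded (isClosed_le H.lip.continuous continuous_const) ?_
  refine (isBounded_closedBall (x := (0 : E d)) (r := s / c)).subset fun x hx => ?_
  rw [mem_closedBall_zero_iff, le_div_iff₀ hc]
  have h1 := h x
  have h2 : z x ≤ s := hx
  linarith

theorem norm_le (H : Gau z ρ) : ∃ M : ℝ, 0 < M ∧ ∀ s, 0 ≤ s → ∀ x, z x ≤ s → ‖x‖ ≤ M * s := by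
  obtain ⟨c, hc, h⟩ := H.lower
  refine ⟨1 / c, by positivity, fun s hs x hx => ?_⟩
  rw [one_div, inv_mul_eq_div, le_div_iff₀ hc]
  have h1 := h x
  linarith

theorem euler (H : Gau z ρ) {x : E d} (hx : DifferentiableAt ℝ z x) : fderiv ℝ z x x = z x := by
  have h1 : HasDerivAt (fun t : ℝ => z (t • x)) (fderiv ℝ z x x) 1 := by
    have h2 : HasDerivAt (fun t : ℝ => t • x) x 1 := by
      simpa using (hasDerivAt_id (1 : ℝ)).smul_const x
    have h3 : HasFDerivAt z (fderiv ℝ z x) ((1 : ℝ) • x) := by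
      rw [one_smul]
      exact hx.hasFDerivAt
    exact h3.comp_hasDerivAt (1 : ℝ) h2
  have h4 : HasDerivAt (fun t : ℝ => t * z x) (z x) 1 := by
    simpa using (hasDerivAt_id (1 : ℝ)).mul_const (z x)
  have h5 : (fun t : ℝ => z (t • x)) =ᶠ[𝓝 1] fun t => t * z x := by
    filter_upwards [eventually_ge_nhds (show (0 : ℝ) < 1 by norm_num)] with t ht
    exact H.hom t ht x
  exact h1.unique (h4.congr_of_eventuallyEq h5)

theorem level (H : Gau z ρ) {s : ℝ} (hs : 0 < s) :
    {x | z x < s} = (s / ρ) • {x | z x < ρ} := by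
  have hr := H.rpos
  ext x
  rw [mem_smul_set_iff_inv_smul_mem₀ (by positivity), mem_setOf_eq, mem_setOf_eq,
    H.hom _ (by positivity), inv_div, div_mul_eq_mul_div, div_lt_iff₀ hs]
  constructor
  · intro h
    exact mul_lt_mul_of_pos_left h hr
  · intro h
    exact lt_of_mul_lt_mul_left h hr.le

end Gau

/-- a locally Lipschitz map with compact support is Lipschitz -/
theorem lip_of_loc {X : E d → E d} (h : LocallyLipschitz X) (hc : HasCompactSupport X) :
    ∃ C : NNReal, LipschitzWith C X := by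
  obtain ⟨R, hR, hR'⟩ := hc.isCompact.isBounded.subset_ball_lt 0 0
  have h0 : ∀ y, R ≤ ‖y‖ → X y = 0 := by
    intro y hy
    by_contra hn
    have h1 := hR' (subset_tsupport X hn)
    rw [mem_ball_zero_iff] at h1
    linarith
  obtain ⟨C, hC⟩ := (h.locallyLipschitzOn (s := closedBall 0 R)).exists_lipschitzOnWith_of_compact
    (isCompact_closedBall 0 R)
  have key : ∀ y y' : E d, ‖y‖ < R → ¬ ‖y'‖ < R → dist (X y) 0 ≤ C * dist y y' := by
    intro y y' hy hy'
    have hc : ContinuousOn (fun t : ℝ => ‖AffineMap.lineMap y y' t‖) (Icc 0 1) := by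
      have : Continuous (fun t : ℝ => ‖AffineMap.lineMap y y' t‖) := by
        simp only [AffineMap.lineMap_apply]
        fun_prop
      exact this.continuousOn
    obtain ⟨t, ht, hteq⟩ : ∃ t ∈ Icc (0:ℝ) 1, ‖AffineMap.lineMap y y' t‖ = R := by
      have := intermediate_value_Icc zero_le_one hc
      exact this ⟨by simpa using hy.le, by simpa using hy'⟩
    set w := AffineMap.lineMap y y' t with hw
    have h1 : dist (X y) (X w) ≤ C * dist y w :=
      hC.dist_le_mul _ (by simpa using hy.le) _ (by simpa using hteq.le)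
    rw [h0 w hteq.ge] at h1
    have h2 : dist y w ≤ dist y y' := by
      rw [hw, dist_left_lineMap, Real.norm_of_nonneg ht.1]
      exact mul_le_of_le_one_left dist_nonneg ht.2
    exact h1.trans (mul_le_mul_of_nonneg_left h2 C.2)
  refine ⟨C, LipschitzWith.of_dist_le_mul fun y y' => ?_⟩
  by_cases hy : ‖y‖ < R <;> by_cases hy' : ‖y'‖ < R
  · exact hC.dist_le_mul _ (by simpa using hy.le) _ (by simpa using hy'.le)
  · rw [h0 y' (not_lt.1 hy')]
    exact key y y' hy hy'
  · rw [h0 y (not_lt.1 hy), dist_comm, dist_comm y y']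
    exact key y' y hy' hy
  · rw [h0 y' (not_lt.1 hy'), h0 y (not_lt.1 hy), dist_self]
    positivity

theorem loc_smul {c : E d → ℝ} {X : E d → E d} (hc : LocallyLipschitz c)
    (hX : LocallyLipschitz X) : LocallyLipschitz (fun y => c y • X y) := by
  have h : ContDiff ℝ 1 (fun q : ℝ × E d => q.1 • q.2) := contDiff_fst.smul contDiff_snd
  have h1 : LocallyLipschitz (fun q : ℝ × E d => q.1 • q.2) := h.locallyLipschitz
  have h2 : LocallyLipschitz (fun y => (c y, X y)) := hc.prodMk hX
  have h3 := LocallyLipschitz.comp h1 h2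
  simpa only [Function.comp_def] using h3

/-- the integral of the divergence of `f X` vanishes, `f` a `C¹` function of a Lipschitz function,
with compact support -/
theorem int_div {z : E d → ℝ} {C : NNReal} (hz : LipschitzWith C z) {g g' : ℝ → ℝ}
    (hg : ∀ t, HasDerivAt g (g' t) t) (hg' : Continuous g') {X : E d → E d} (hX : ContDiff ℝ 1 X)
    (hs : HasCompactSupport fun x => g (z x)) :
    ∫ x, (g (z x) * divg X x + g' (z x) * fderiv ℝ z x (X x)) = 0 := by
  have hgc : ContDiff ℝ 1 g := by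
    rw [contDiff_one_iff_deriv]
    refine ⟨fun t => (hg t).differentiableAt, ?_⟩
    have : deriv g = g' := funext fun t => (hg t).deriv
    rw [this]
    exact hg'
  have h1 : LocallyLipschitz fun x => g (z x) := hgc.locallyLipschitz.comp hz.locallyLipschitz
  have h2 : LocallyLipschitz fun x => g (z x) • X x := loc_smul h1 hX.locallyLipschitz
  have h3 : HasCompactSupport fun x => g (z x) • X x := hs.smul_right
  obtain ⟨K, hK⟩ := lip_of_loc h2 h3
  rw [← integral_divg_eq_zero hK h3]
  refine integral_congr_ae ?_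
  filter_upwards [hz.ae_differentiableAt (μ := (volume : Measure (E d)))] with x hx
  have h4 : HasFDerivAt (fun x => g (z x)) (g' (z x) • fderiv ℝ z x) x :=
    (hg (z x)).comp_hasFDerivAt x hx.hasFDerivAt
  rw [divg_smul h4.differentiableAt (hX.differentiable one_ne_zero x), h4.fderiv]
  simp

end Pool.Agent.RobCirc
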