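import Pool.Agent.RobCirc.A

set_option autoImplicit false

/-!
# Mollifications: a `1`-Lipschitz function, and a bounded field
-/

open MeasureTheory Metric Set Filter Topology
open scoped Pointwise Convolution

namespace Pool.Agent.RobCirc

open Pool.Agent.Rob

variable {d : ℕ}

theorem moll {r : E d → ℝ} (hr : LipschitzWith 1 r) {ε : ℝ} (hε : 0 < ε) :
    ∃ ρ : E d → ℝ, ContDiff ℝ 1 ρ ∧ (∀ x, ‖fderiv ℝ ρ x‖ ≤ 1) ∧
      ∀ x, r x ≤ ρ x ∧ ρ x ≤ r x + ε := by
  obtain ⟨φ, hφ⟩ : ∃ φ : ContDiffBump (0 : E d), φ.rOut = ε / 2 :=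
    ⟨⟨ε / 4, ε / 2, by positivity, by linarith⟩, rfl⟩
  obtain ⟨g, hg⟩ : ∃ g : E d → ℝ,
      g = φ.normed volume ⋆[ContinuousLinearMap.lsmul ℝ ℝ, volume] r := ⟨_, rfl⟩
  have hgc : ContDiff ℝ 1 g := by
    rw [hg]
    exact (φ.hasCompactSupport_normed (μ := volume)).contDiff_convolution_left
      (L := ContinuousLinearMap.lsmul ℝ ℝ (E := ℝ)) (n := 1) (μ := volume)
      (φ.contDiff_normed (n := 1)) hr.continuous.locallyIntegrable
  have happ : ∀ x, g x = ∫ t, φ.normed volume t • r (x - t) := fun x => by rw [hg]; rfl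
  have hint : ∀ x, Integrable (fun t => φ.normed volume t • r (x - t)) := by
    intro x
    refine Continuous.integrable_of_hasCompactSupport ?_ ?_
    · exact (φ.continuous_normed).smul (hr.continuous.comp (by fun_prop))
    · exact (φ.hasCompactSupport_normed).smul_right
  have hlip : LipschitzWith 1 g := by
    refine LipschitzWith.of_dist_le_mul fun x y => ?_
    rw [Real.dist_eq, happ, happ, ← integral_sub (hint x) (hint y)]
    have h1 : ∀ t, ‖φ.normed volume t • r (x - t) - φ.normed volume t • r (y - t)‖ ≤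
        φ.normed volume t * dist x y := by
      intro t
      rw [← smul_sub, norm_smul, Real.norm_of_nonneg (φ.nonneg_normed t)]
      refine mul_le_mul_of_nonneg_left ?_ (φ.nonneg_normed t)
      have h2 := hr.dist_le_mul (x - t) (y - t)
      rw [dist_sub_right] at h2
      rw [Real.norm_eq_abs, ← Real.dist_eq]
      simpa using h2
    have h3 : Integrable (fun t => φ.normed volume t * dist x y) :=
      (φ.integrable_normed).mul_const _
    have h4 := norm_integral_le_of_norm_le h3 (ae_of_all _ h1)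
    rw [integral_mul_const, φ.integral_normed, one_mul, Real.norm_eq_abs] at h4
    simpa using h4
  have hclose : ∀ x, dist (g x) (r x) ≤ ε / 2 := by
    intro x
    rw [hg]
    refine φ.dist_normed_convolution_le hr.continuous.aestronglyMeasurable fun y hy => ?_
    have h1 := hr.dist_le_mul y x
    rw [mem_ball, hφ] at hy
    have h2 : dist (r y) (r x) ≤ dist y x := by simpa using h1
    exact h2.trans hy.le
  refine ⟨fun x => g x + ε / 2, hgc.add contDiff_const, fun x => ?_, fun x => ?_⟩
  · rw [fderiv_add_const]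
    exact_mod_cast norm_fderiv_le_of_lipschitz ℝ hlip
  · have h1 := hclose x
    rw [Real.dist_eq, abs_le] at h1
    constructor <;> simp only <;> linarith

/-- smooth fields of norm at most one which converge almost everywhere to a given one -/
theorem moll_field {g : E d → E d} (hg : Measurable g) (hb : ∀ x, ‖g x‖ ≤ 1) :
    ∃ X : ℕ → E d → E d, (∀ n, ContDiff ℝ 1 (X n)) ∧ (∀ n x, ‖X n x‖ ≤ 1) ∧
      ∀ᵐ x, Tendsto (fun n => X n x) atTop (𝓝 (g x)) := by
  have hloc : LocallyIntegrable g := by
    have h1 : LocallyIntegrable (fun _ : E d => (1 : ℝ)) := locallyIntegrable_const 1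
    refine h1.mono hg.aestronglyMeasurable (ae_of_all _ fun x => ?_)
    simpa using hb x
  obtain ⟨φ, hφ⟩ : ∃ φ : ℕ → ContDiffBump (0 : E d), ∀ n, (φ n).rOut = 2 / ((n : ℝ) + 1) ∧
      (φ n).rIn = 1 / ((n : ℝ) + 1) :=
    ⟨fun n => ⟨1 / ((n : ℝ) + 1), 2 / ((n : ℝ) + 1), by positivity, by
      have : (0 : ℝ) < (n : ℝ) + 1 := by positivity
      gcongr
      norm_num⟩, fun n => ⟨rfl, rfl⟩⟩
  refine ⟨fun n => (φ n).normed volume ⋆[ContinuousLinearMap.lsmul ℝ ℝ, volume] g,
    fun n => ?_, fun n x => ?_, ?_⟩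
  · exact ((φ n).hasCompactSupport_normed (μ := volume)).contDiff_convolution_left
      (L := ContinuousLinearMap.lsmul ℝ ℝ (E := E d)) (n := 1) (μ := volume)
      ((φ n).contDiff_normed (n := 1)) hloc
  · change ‖∫ t, (φ n).normed volume t • g (x - t)‖ ≤ 1
    have h1 : ∀ t, ‖(φ n).normed volume t • g (x - t)‖ ≤ (φ n).normed volume t := by
      intro t
      rw [norm_smul, Real.norm_of_nonneg ((φ n).nonneg_normed t)]
      exact mul_le_of_le_one_right ((φ n).nonneg_normed t) (hb _)
    have h2 := norm_integral_le_of_norm_le (φ n).integrable_normed (ae_of_all _ h1)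
    rwa [(φ n).integral_normed] at h2
  · refine ContDiffBump.ae_convolution_tendsto_right_of_locallyIntegrable (K := 2) ?_ ?_ hloc
    · have h1 : Tendsto (fun n : ℕ => 2 * (1 / ((n : ℝ) + 1))) atTop (𝓝 (2 * 0)) :=
        tendsto_one_div_add_atTop_nhds_zero_nat.const_mul 2
      rw [mul_zero] at h1
      refine h1.congr fun n => ?_
      rw [(hφ n).1]
      ring
    · refine Eventually.of_forall fun n => ?_
      rw [(hφ n).1, (hφ n).2]
      apply le_of_eq
      ring

end Pool.Agent.RobCirc
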