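import Pool.Agent.RobCirc.A
import Pool.Agent.Rob.Defs

set_option autoImplicit false

/-!
# The identity of the radial solution under a gauge
-/

open MeasureTheory Metric Set Filter Topology

namespace Pool.Agent.RobCirc

open Pool.Agent.Rob

variable {d : ℕ}

/-- a cutoff: `χ t = ∫_t^ρ η`, `η` supported in `[s0, ρ]` -/
structure Cut (s0 ρ : ℝ) (χ η : ℝ → ℝ) : Prop where
  cont : Continuous η
  nonneg : ∀ s, 0 ≤ η s
  left : ∀ s, s ≤ s0 → η s = 0
  right : ∀ s, ρ ≤ s → η s = 0
  deriv : ∀ t, HasDerivAt χ (-η t) t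
  eq : ∀ t, χ t = ∫ s in t..ρ, η s
  pos : 0 < χ 0

theorem exists_cut {s0 ρ : ℝ} (h0 : 0 < s0) (h : s0 < ρ) : ∃ χ η : ℝ → ℝ, Cut s0 ρ χ η := by
  let η : ℝ → ℝ := fun s => max 0 (s - s0) * max 0 (ρ - s)
  have hc : Continuous η := by fun_prop
  have hn : ∀ s, 0 ≤ η s := fun s => mul_nonneg (le_max_left _ _) (le_max_left _ _)
  refine ⟨fun t => ∫ s in t..ρ, η s, η, hc, hn, fun s hs => ?_, fun s hs => ?_, fun t => ?_,
    fun t => rfl, ?_⟩
  · simp only [η]
    rw [max_eq_left (by linarith), zero_mul]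
  · simp only [η]
    rw [max_eq_left (show ρ - s ≤ 0 by linarith), mul_zero]
  · exact intervalIntegral.integral_hasDerivAt_left (hc.intervalIntegrable _ _)
      hc.aestronglyMeasurable.stronglyMeasurableAtFilter hc.continuousAt
  · refine intervalIntegral.integral_pos (h0.trans h) hc.continuousOn (fun s _ => hn s)
      ⟨(s0 + ρ) / 2, ⟨by linarith, by linarith⟩, ?_⟩
    simp only [η]
    rw [max_eq_right (by linarith), max_eq_right (by linarith)]
    exact mul_pos (by linarith) (by linarith)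

namespace Cut

variable {s0 ρ : ℝ} {χ η : ℝ → ℝ}

theorem zero (H : Cut s0 ρ χ η) {t : ℝ} (ht : ρ ≤ t) : χ t = 0 := by
  rw [H.eq, intervalIntegral.integral_symm, intervalIntegral.integral_of_le ht]
  rw [setIntegral_congr_fun measurableSet_Ioc (g := fun _ => (0 : ℝ))
    (fun s hs => H.right s hs.1.le)]
  simp

theorem chi_nonneg (H : Cut s0 ρ χ η) (t : ℝ) : 0 ≤ χ t := by
  rcases le_total t ρ with h | h
  · rw [H.eq]
    exact intervalIntegral.integral_nonneg h fun s _ => H.nonneg s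
  · rw [H.zero h]

theorem chi_cont (H : Cut s0 ρ χ η) : Continuous χ :=
  continuous_iff_continuousAt.2 fun t => (H.deriv t).continuousAt

end Cut

/-- `L t = ∫_0^t s φ(s²) ds` -/
noncomputable def Lf (phi : ℝ → ℝ) (t : ℝ) : ℝ := ∫ s in (0 : ℝ)..t, s * phi (s ^ 2)

section

variable {R a : ℝ} {phi phi' : ℝ → ℝ}

theorem phi_cont (H : RadP R a phi phi') : Continuous fun s : ℝ => phi (s ^ 2) := by
  refine continuous_iff_continuousAt.2 fun t => ?_
  exact ContinuousAt.comp (f := fun s : ℝ => s ^ 2) (H.dphi (t ^ 2) (sq_nonneg t)).continuousAt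
    (by fun_prop)

theorem phi'_cont (H : RadP R a phi phi') : Continuous fun s : ℝ => phi' (s ^ 2) :=
  H.cphi.comp_continuous (by fun_prop) fun s => sq_nonneg s

theorem Lf_deriv (H : RadP R a phi phi') (t : ℝ) : HasDerivAt (Lf phi) (t * phi (t ^ 2)) t := by
  have hc : Continuous fun s : ℝ => s * phi (s ^ 2) := continuous_id.mul (phi_cont H)
  exact intervalIntegral.integral_hasDerivAt_right (hc.intervalIntegrable _ _)
    hc.aestronglyMeasurable.stronglyMeasurableAtFilter hc.continuousAt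

theorem Lf_cont (H : RadP R a phi phi') : Continuous (Lf phi) :=
  continuous_iff_continuousAt.2 fun t => (Lf_deriv H t).continuousAt

/-- the logarithmic derivative is at most `a` up to `R` -/
theorem w_le (H : RadP R a phi phi') {t : ℝ} (h0 : 0 ≤ t) (h : t ≤ R) : t * phi (t ^ 2) ≤ a := by
  rw [← H.bdry]
  have h1 : ∀ s, 0 ≤ s → HasDerivAt (fun s => s * phi (s ^ 2))
      (phi (s ^ 2) + 2 * s ^ 2 * phi' (s ^ 2)) s := by
    intro s _
    have h2 : HasDerivAt (fun s : ℝ => phi (s ^ 2)) (phi' (s ^ 2) * (2 * s)) s := by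
      have h3 : HasDerivAt (fun s : ℝ => s ^ 2) (2 * s) s := by simpa using hasDerivAt_pow 2 s
      have h4 : HasDerivAt phi (phi' (s ^ 2)) ((fun s : ℝ => s ^ 2) s) :=
        H.dphi (s ^ 2) (sq_nonneg s)
      exact HasDerivAt.comp (h := fun s : ℝ => s ^ 2) s h4 h3
    refine ((hasDerivAt_id s).mul h2).congr_deriv ?_
    simp only [id]
    ring
  have hm : MonotoneOn (fun s => s * phi (s ^ 2)) (Ici 0) := by
    refine monotoneOn_of_deriv_nonneg (convex_Ici 0) ?_ ?_ ?_
    · exact fun s hs => (h1 s hs).continuousAt.continuousWithinAt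
    · intro s hs
      rw [interior_Ici] at hs
      exact (h1 s (le_of_lt hs)).differentiableAt.differentiableWithinAt
    · intro s hs
      rw [interior_Ici] at hs
      rw [(h1 s (le_of_lt hs)).deriv]
      exact (H.hmono (s ^ 2) (sq_nonneg s)).le
  exact hm h0 (h0.trans h) h

variable {z : E d → ℝ} {ρ s0 K : ℝ} {χ η : ℝ → ℝ}

theorem cs_chi (G : Gau z ρ) (C : Cut s0 ρ χ η) {f : ℝ → ℝ} :
    HasCompactSupport fun x => χ (z x) * f (z x) := by
  refine HasCompactSupport.intro (G.compact ρ) fun x hx => ?_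
  rw [C.zero (not_le.1 hx).le, zero_mul]

/-- identity (I) -/
theorem ident (H : RadP R a phi phi') (G : Gau z ρ) (C : Cut s0 ρ χ η)
    (ode : ∀ t, 0 ≤ t → d * phi t + 2 * t * phi' t + t * phi t ^ 2 = K) :
    ∫ x, Real.exp (2 * Lf phi (z x)) * (χ (z x) * (K + (z x * phi (z x ^ 2)) ^ 2)
      - z x * phi (z x ^ 2) * η (z x)) = 0 := by
  have h2 : ∀ s : ℝ, HasDerivAt (fun s : ℝ => phi (s ^ 2)) (phi' (s ^ 2) * (2 * s)) s := by
    intro s
    have h3 : HasDerivAt (fun s : ℝ => s ^ 2) (2 * s) s := by simpa using hasDerivAt_pow 2 s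
    have h4 : HasDerivAt phi (phi' (s ^ 2)) ((fun s : ℝ => s ^ 2) s) :=
      H.dphi (s ^ 2) (sq_nonneg s)
    exact HasDerivAt.comp (h := fun s : ℝ => s ^ 2) s h4 h3
  have h3 : ∀ s : ℝ, HasDerivAt (fun s : ℝ => Real.exp (2 * Lf phi s))
      (Real.exp (2 * Lf phi s) * (2 * (s * phi (s ^ 2)))) s := fun s =>
    ((Lf_deriv H s).const_mul 2).exp
  have hg : ∀ t, HasDerivAt (fun t => χ t * (phi (t ^ 2) * Real.exp (2 * Lf phi t)))
      (-η t * (phi (t ^ 2) * Real.exp (2 * Lf phi t)) + χ t * (phi' (t ^ 2) * (2 * t) *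
        Real.exp (2 * Lf phi t) + phi (t ^ 2) * (Real.exp (2 * Lf phi t) *
          (2 * (t * phi (t ^ 2)))))) t := fun t => (C.deriv t).mul ((h2 t).mul (h3 t))
  have hc1 := phi_cont H
  have hc2 := phi'_cont H
  have hc3 := Lf_cont H
  have hc4 := C.cont
  have hc5 := C.chi_cont
  have hE : Continuous fun t => Real.exp (2 * Lf phi t) :=
    Real.continuous_exp.comp (continuous_const.mul hc3)
  have hcc : Continuous fun t : ℝ => -η t * (phi (t ^ 2) * Real.exp (2 * Lf phi t)) + χ t *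
      (phi' (t ^ 2) * (2 * t) * Real.exp (2 * Lf phi t) + phi (t ^ 2) *
        (Real.exp (2 * Lf phi t) * (2 * (t * phi (t ^ 2))))) := (hc4.neg.mul (hc1.mul hE)).add (hc5.mul (((hc2.mul (continuous_const.mul
    continuous_id)).mul hE).add (hc1.mul (hE.mul (continuous_const.mul
      (continuous_id.mul hc1))))))
  have key := int_div G.lip hg hcc (X := fun x : E d => x) contDiff_id
    (cs_chi G C (f := fun t => phi (t ^ 2) * Real.exp (2 * Lf phi t)))
  rw [← key]
  refine integral_congr_ae ?_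
  filter_upwards [G.grad] with x hx
  have hd : divg (fun x : E d => x) x = d := by
    rw [divg_eq_trace, jac_id]
    simp
  rw [hd, G.euler hx.1]
  have := ode (z x ^ 2) (sq_nonneg _)
  linear_combination (Real.exp (2 * Lf phi (z x)) * χ (z x)) * (-this)

/-- identity (II) -/
theorem ibp (G : Gau z ρ) (C : Cut s0 ρ χ η) {Y : E d → E d} (hY : ContDiff ℝ 1 Y) :
    ∫ x, (χ (z x) * divg Y x + -η (z x) * fderiv ℝ z x (Y x)) = 0 := by
  refine int_div G.lip C.deriv C.cont.neg hY ?_
  have := cs_chi G C (f := fun _ => 1)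
  simpa using this

end

end Pool.Agent.RobCirc
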