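import Pool.Agent.RobCirc.C

set_option autoImplicit false

/-!
# Slicing along the level sets of the gauge
-/

open MeasureTheory Metric Set Filter Topology

namespace Pool.Agent.RobCirc

open Pool.Agent.Rob

variable {d : ℕ} {z : E d → ℝ} {ρ s0 : ℝ} {χ η : ℝ → ℝ}

theorem slice (G : Gau z ρ) (C : Cut s0 ρ χ η) {g : E d → ℝ} (hg : Continuous g) :
    ∫ x, χ (z x) * g x = ∫ s in Ioc 0 ρ, η s * ∫ x in {x | z x < s}, g x := by
  have hzc : Continuous z := G.lip.continuous
  have hm : ∀ s, MeasurableSet {x : E d | z x < s} := fun s =>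
    (isOpen_lt hzc continuous_const).measurableSet
  have hfin : volume {x : E d | z x < ρ} < ⊤ :=
    (G.bdd).measure_lt_top
  haveI : IsFiniteMeasure (volume.restrict {x : E d | z x < ρ}) :=
    ⟨by rw [Measure.restrict_apply_univ]; exact hfin⟩
  haveI : IsFiniteMeasure ((volume : Measure ℝ).restrict (Ioc 0 ρ)) :=
    ⟨by rw [Measure.restrict_apply_univ]; exact measure_Ioc_lt_top⟩
  let F : ℝ → E d → ℝ := fun s x => η s * (if z x < s then g x else 0)
  obtain ⟨M1, hM1⟩ : ∃ M, ∀ s ∈ Icc (0 : ℝ) ρ, |η s| ≤ M := by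
    obtain ⟨M, hM⟩ := (isCompact_Icc (a := (0 : ℝ)) (b := ρ)).exists_bound_of_continuousOn
      C.cont.continuousOn
    exact ⟨M, fun s hs => by simpa using hM s hs⟩
  obtain ⟨M2, hM2⟩ : ∃ M, ∀ x, z x ≤ ρ → |g x| ≤ M := by
    obtain ⟨M, hM⟩ := (G.compact ρ).exists_bound_of_continuousOn hg.continuousOn
    exact ⟨M, fun s hs => by simpa using hM s hs⟩
  have hFm : Measurable (Function.uncurry F) := by
    refine (C.cont.measurable.comp measurable_fst).mul ?_
    refine Measurable.ite ?_ (hg.measurable.comp measurable_snd) measurable_const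
    exact measurableSet_lt (hzc.measurable.comp measurable_snd) measurable_fst
  have hFi : Integrable (Function.uncurry F)
      (((volume : Measure ℝ).restrict (Ioc 0 ρ)).prod (volume.restrict {x : E d | z x < ρ})) := by
    refine Integrable.of_bound hFm.aestronglyMeasurable (M1 * M2) ?_
    rw [Measure.prod_restrict]
    refine (ae_restrict_iff' (measurableSet_Ioc.prod (hm ρ))).2 (ae_of_all _ fun p hp => ?_)
    have h1 := hM1 p.1 ⟨hp.1.1.le, hp.1.2⟩
    have h2 := hM2 p.2 (le_of_lt hp.2)
    have h3 : 0 ≤ M1 := (abs_nonneg _).trans h1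
    have h4 : 0 ≤ M2 := (abs_nonneg _).trans h2
    change ‖η p.1 * (if z p.2 < p.1 then g p.2 else 0)‖ ≤ M1 * M2
    rw [norm_mul, Real.norm_eq_abs]
    refine mul_le_mul h1 ?_ (norm_nonneg _) h3
    split_ifs
    · simpa using h2
    · simpa using h4
  have hsw := integral_integral_swap (f := F) hFi
  have hL : ∀ s ∈ Ioc (0 : ℝ) ρ, (∫ x in {x : E d | z x < ρ}, F s x) =
      η s * ∫ x in {x | z x < s}, g x := by
    intro s hs
    simp only [F]
    rw [integral_const_mul]
    congr 1
    have h1 : (fun x => if z x < s then g x else 0) = {x : E d | z x < s}.indicator g := by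
      ext x
      simp [Set.indicator_apply]
    rw [h1, integral_indicator (hm s), Measure.restrict_restrict (hm s)]
    congr 2
    ext x
    simp only [mem_inter_iff, mem_setOf_eq]
    exact ⟨fun h => h.1, fun h => ⟨h, h.trans_le hs.2⟩⟩
  have hR : ∀ x : E d, z x < ρ → (∫ s in Ioc 0 ρ, F s x) = χ (z x) * g x := by
    intro x hx
    have h0 := G.nonneg x
    have h1 : (fun s => F s x) = fun s => (Ioi (z x)).indicator (fun s => η s * g x) s := by
      ext s
      simp only [F, Set.indicator_apply, mem_Ioi]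
      split_ifs <;> simp
    rw [h1, integral_indicator measurableSet_Ioi, Measure.restrict_restrict measurableSet_Ioi]
    have h2 : Ioi (z x) ∩ Ioc 0 ρ = Ioc (z x) ρ := by
      ext s
      simp only [mem_inter_iff, mem_Ioi, mem_Ioc]
      exact ⟨fun h => ⟨h.1, h.2.2⟩, fun h => ⟨h.1, h0.trans_lt h.1, h.2⟩⟩
    rw [h2, integral_mul_const, C.eq, intervalIntegral.integral_of_le hx.le]
  have h3 : ∫ x, χ (z x) * g x = ∫ x in {x : E d | z x < ρ}, χ (z x) * g x := by
    refine (setIntegral_eq_integral_of_forall_compl_eq_zero fun x hx => ?_).symm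
    rw [C.zero (not_lt.1 hx), zero_mul]
  rw [h3, ← setIntegral_congr_fun measurableSet_Ioc (fun s hs => hL s hs), hsw]
  exact setIntegral_congr_fun (hm ρ) fun x hx => (hR x hx).symm

theorem select (G : Gau z ρ) (C : Cut s0 ρ χ η) (h0 : 0 < s0) {g : E d → ℝ} (hg : Continuous g)
    (h : ∫ x, χ (z x) * g x < 0) : ∃ s, s0 < s ∧ s < ρ ∧ ∫ x in {x | z x < s}, g x < 0 := by
  by_contra hcon
  push Not at hcon
  rw [slice G C hg] at h
  refine absurd h (not_lt.2 (setIntegral_nonneg measurableSet_Ioc fun s _ => ?_))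
  rcases le_or_gt s s0 with h1 | h1
  · rw [C.left s h1, zero_mul]
  rcases lt_or_ge s ρ with h2 | h2
  · exact mul_nonneg (C.nonneg s) (hcon s h1 h2)
  · rw [C.right s h2, zero_mul]

end Pool.Agent.RobCirc
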