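import Pool.Agent.RobCirc.B
import Pool.Agent.RobCirc.D

set_option autoImplicit false

/-!
# The test functions
-/

open MeasureTheory Metric Set Filter Topology

namespace Pool.Agent.RobCirc

open Pool.Agent.Rob

variable {d : ℕ} {z : E d → ℝ} {ρ s0 R a K K' : ℝ} {χ η phi phi' : ℝ → ℝ}

theorem cs_mul (G : Gau z ρ) {c : ℝ → ℝ} (hc : ∀ t, ρ ≤ t → c t = 0) (f : E d → ℝ) :
    HasCompactSupport fun x => c (z x) * f x := by
  refine HasCompactSupport.intro (G.compact ρ) fun x hx => ?_
  rw [hc _ (not_le.1 hx).le, zero_mul]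

theorem int_mul (G : Gau z ρ) {c : ℝ → ℝ} (hcc : Continuous c) (hc : ∀ t, ρ ≤ t → c t = 0)
    {f : E d → ℝ} (hf : Continuous f) : Integrable fun x => c (z x) * f x :=
  Continuous.integrable_of_hasCompactSupport ((hcc.comp G.lip.continuous).mul hf)
    (cs_mul G hc f)

/-- the strict inequality for the exact gauge -/
theorem strict (H : RadP R a phi phi') (G : Gau z ρ) (C : Cut s0 ρ χ η) (hρ : ρ ≤ R)
    (ode : ∀ t, 0 ≤ t → d * phi t + 2 * t * phi' t + t * phi t ^ 2 = K) (hK : K' < K) :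
    ∫ x, χ (z x) * (((z x * phi (z x ^ 2)) ^ 2 + K') * Real.exp (2 * Lf phi (z x))) <
      a * ∫ x, η (z x) * Real.exp (2 * Lf phi (z x)) := by
  have hzc : Continuous z := G.lip.continuous
  have hc1 : Continuous fun x => phi (z x ^ 2) := (phi_cont H).comp hzc
  have hc3 : Continuous fun x => Real.exp (2 * Lf phi (z x)) :=
    Real.continuous_exp.comp (continuous_const.mul ((Lf_cont H).comp hzc))
  have i1 : Integrable fun x => χ (z x) * (((z x * phi (z x ^ 2)) ^ 2 + K') *
      Real.exp (2 * Lf phi (z x))) :=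
    int_mul G C.chi_cont (fun t => C.zero) ((((hzc.mul hc1).pow 2).add continuous_const).mul hc3)
  have i2 : Integrable fun x => χ (z x) * Real.exp (2 * Lf phi (z x)) :=
    int_mul G C.chi_cont (fun t => C.zero) hc3
  have i3 : Integrable fun x => η (z x) * Real.exp (2 * Lf phi (z x)) :=
    int_mul G C.cont C.right hc3
  have i4 : Integrable fun x => η (z x) * (z x * phi (z x ^ 2) * Real.exp (2 * Lf phi (z x))) :=
    int_mul G C.cont C.right ((hzc.mul hc1).mul hc3)
  have h1 := ident H G C ode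
  have h2 : ∫ x, χ (z x) * (((z x * phi (z x ^ 2)) ^ 2 + K') * Real.exp (2 * Lf phi (z x))) =
      (∫ x, η (z x) * (z x * phi (z x ^ 2) * Real.exp (2 * Lf phi (z x)))) -
        (K - K') * ∫ x, χ (z x) * Real.exp (2 * Lf phi (z x)) := by
    have i5 : Integrable fun x => η (z x) * (z x * phi (z x ^ 2) * Real.exp (2 * Lf phi (z x))) -
        (K - K') * (χ (z x) * Real.exp (2 * Lf phi (z x))) := i4.sub (i2.const_mul _)
    rw [← integral_const_mul, ← integral_sub i4 (i2.const_mul _), ← sub_eq_zero,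
      ← integral_sub i1 i5, ← h1]
    congr 1
    ext x
    ring
  have h3 : ∫ x, η (z x) * (z x * phi (z x ^ 2) * Real.exp (2 * Lf phi (z x))) ≤
      a * ∫ x, η (z x) * Real.exp (2 * Lf phi (z x)) := by
    rw [← integral_const_mul]
    refine integral_mono i4 (i3.const_mul a) fun x => ?_
    simp only
    rcases le_or_gt ρ (z x) with h4 | h4
    · rw [C.right _ h4]
      simp
    · have h5 := w_le H (G.nonneg x) (h4.le.trans hρ)
      have h6 : 0 ≤ η (z x) * Real.exp (2 * Lf phi (z x)) :=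
        mul_nonneg (C.nonneg _) (Real.exp_pos _).le
      nlinarith
  have h4 : 0 < ∫ x, χ (z x) * Real.exp (2 * Lf phi (z x)) := by
    refine Continuous.integral_pos_of_hasCompactSupport_nonneg_nonzero
      ((C.chi_cont.comp hzc).mul hc3) (cs_mul G (fun t => C.zero) _)
      (fun x => mul_nonneg (C.chi_nonneg _) (Real.exp_pos _).le) (x := 0) ?_
    rw [G.zero]
    exact (mul_pos C.pos (Real.exp_pos _)).ne'
  rw [h2]
  nlinarith

theorem exists_test (H : RadP R a phi phi') (G : Gau z ρ) (C : Cut s0 ρ χ η) (hρ : ρ ≤ R)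
    (ode : ∀ t, 0 ≤ t → d * phi t + 2 * t * phi' t + t * phi t ^ 2 = K) 
    (hK : K' < K) :
    ∃ (u : E d → ℝ) (X : E d → E d), ContDiff ℝ 1 u ∧ (∀ x, 0 < u x) ∧ ContDiff ℝ 1 X ∧
      (∀ x, ‖X x‖ ≤ 1) ∧
      ∫ x, χ (z x) * (‖fderiv ℝ u x‖ ^ 2 + K' * u x ^ 2 -
        a * divg (fun y => u y ^ 2 • X y) x) < 0 := by
  have hzc : Continuous z := G.lip.continuous
  have hr : ∀ n : ℕ, ∃ r : E d → ℝ, ContDiff ℝ 1 r ∧ (∀ x, ‖fderiv ℝ r x‖ ≤ 1) ∧
      ∀ x, z x ≤ r x ∧ r x ≤ z x + 1 / ((n : ℝ) + 1) := fun n => moll G.lip (by positivity)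
  choose r r1 r2 r3 using hr
  have hgm : Measurable (gradient z) :=
    (InnerProductSpace.toDual ℝ (E d)).symm.continuous.measurable.comp (measurable_fderiv ℝ z)
  have hgb : ∀ x, ‖gradient z x‖ ≤ 1 := fun x => by
    rw [gradient, LinearIsometryEquiv.norm_map]
    exact_mod_cast norm_fderiv_le_of_lipschitz ℝ G.lip
  obtain ⟨X, X1, X2, X3⟩ := moll_field hgm hgb
  have hrt : ∀ x, Tendsto (fun n => r n x) atTop (𝓝 (z x)) := by
    intro x
    refine tendsto_of_tendsto_of_tendsto_of_le_of_le tendsto_const_nhds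
      (h := fun n : ℕ => z x + 1 / ((n : ℝ) + 1)) ?_ (fun n => (r3 n x).1) (fun n => (r3 n x).2)
    have := tendsto_one_div_add_atTop_nhds_zero_nat (𝕜 := ℝ).const_add (z x)
    simpa using this
  let F1 : ℝ → ℝ := fun t => ((t * phi (t ^ 2)) ^ 2 + K') * Real.exp (2 * Lf phi t)
  let F2 : ℝ → ℝ := fun t => Real.exp (2 * Lf phi t)
  have c2 : Continuous F2 := Real.continuous_exp.comp (continuous_const.mul (Lf_cont H))
  have c1 : Continuous F1 :=
    (((continuous_id.mul (phi_cont H)).pow 2).add continuous_const).mul c2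
  have hbd : ∀ F : ℝ → ℝ, Continuous F → ∃ M, ∀ n x, z x ≤ ρ → ‖F (r n x)‖ ≤ M := by
    intro F hF
    obtain ⟨M, hM⟩ := (isCompact_Icc (a := (0 : ℝ)) (b := ρ + 1)).exists_bound_of_continuousOn
      hF.continuousOn
    refine ⟨M, fun n x hx => hM _ ⟨(G.nonneg x).trans (r3 n x).1, ?_⟩⟩
    have h1 := (r3 n x).2
    have h2 : 1 / ((n : ℝ) + 1) ≤ 1 := by
      rw [div_le_one (by positivity)]
      linarith [(Nat.cast_nonneg n : (0 : ℝ) ≤ n)]
    linarith
  obtain ⟨M1, hM1⟩ := hbd F1 c1
  obtain ⟨M2, hM2⟩ := hbd F2 c2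
  have t1 : Tendsto (fun n => ∫ x, χ (z x) * F1 (r n x)) atTop
      (𝓝 (∫ x, χ (z x) * F1 (z x))) := by
    refine tendsto_integral_of_dominated_convergence (fun x => χ (z x) * M1) (fun n => ?_)
      (int_mul G C.chi_cont (fun t => C.zero) continuous_const) (fun n => ae_of_all _ fun x => ?_)
      (ae_of_all _ fun x => ?_)
    · exact ((C.chi_cont.comp hzc).mul (c1.comp (r1 n).continuous)).aestronglyMeasurable
    · rw [norm_mul, Real.norm_of_nonneg (C.chi_nonneg _)]
      rcases le_or_gt (z x) ρ with h | h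
      · exact mul_le_mul_of_nonneg_left (hM1 n x h) (C.chi_nonneg _)
      · rw [C.zero h.le, zero_mul, zero_mul]
    · exact ((c1.tendsto (z x)).comp (hrt x)).const_mul _
  have hfm : ∀ n, AEStronglyMeasurable (fun x => fderiv ℝ z x (X n x))
      (volume : Measure (E d)) := by
    intro n
    have : (fun x => fderiv ℝ z x (X n x)) = fun x => inner ℝ (gradient z x) (X n x) := by
      ext x
      rw [gradient, InnerProductSpace.toDual_symm_apply]
    rw [this]
    exact (hgm.inner (X1 n).continuous.measurable).aestronglyMeasurable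
  have hf1 : ∀ n x, ‖fderiv ℝ z x (X n x)‖ ≤ 1 := by
    intro n x
    have h1 := (fderiv ℝ z x).le_opNorm (X n x)
    have h2 : ‖fderiv ℝ z x‖ ≤ 1 := by exact_mod_cast norm_fderiv_le_of_lipschitz ℝ G.lip
    calc ‖fderiv ℝ z x (X n x)‖ ≤ ‖fderiv ℝ z x‖ * ‖X n x‖ := h1
      _ ≤ 1 * 1 := mul_le_mul h2 (X2 n x) (norm_nonneg _) (by norm_num)
      _ = 1 := by norm_num
  have t2 : Tendsto (fun n => ∫ x, η (z x) * (F2 (r n x) * fderiv ℝ z x (X n x))) atTop
      (𝓝 (∫ x, η (z x) * (F2 (z x) * 1))) := by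
    refine tendsto_integral_of_dominated_convergence (fun x => η (z x) * M2) (fun n => ?_)
      (int_mul G C.cont C.right continuous_const) (fun n => ae_of_all _ fun x => ?_) ?_
    · exact (C.cont.comp hzc).aestronglyMeasurable.mul
        ((c2.comp (r1 n).continuous).aestronglyMeasurable.mul (hfm n))
    · rw [norm_mul, Real.norm_of_nonneg (C.nonneg _)]
      rcases le_or_gt (z x) ρ with h | h
      · refine mul_le_mul_of_nonneg_left ?_ (C.nonneg _)
        rw [norm_mul]
        calc ‖F2 (r n x)‖ * ‖fderiv ℝ z x (X n x)‖ ≤ ‖F2 (r n x)‖ * 1 :=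
              mul_le_mul_of_nonneg_left (hf1 n x) (norm_nonneg _)
          _ ≤ M2 := by rw [mul_one]; exact hM2 n x h
      · rw [C.right _ h.le, zero_mul, zero_mul]
    · filter_upwards [G.grad, X3] with x hx hX
      refine (Tendsto.mul ((c2.tendsto (z x)).comp (hrt x)) ?_).const_mul _
      have h1 : fderiv ℝ z x (gradient z x) = 1 := by
        have h2 : inner ℝ (gradient z x) (gradient z x) = fderiv ℝ z x (gradient z x) := by
          rw [gradient, InnerProductSpace.toDual_symm_apply]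
        rw [← h2, real_inner_self_eq_norm_sq, gradient, LinearIsometryEquiv.norm_map, hx.2]
        norm_num
      rw [← h1]
      exact ((fderiv ℝ z x).continuous.tendsto _).comp hX
  have hlim := t1.sub (t2.const_mul a)
  have hneg : (∫ x, χ (z x) * F1 (z x)) - a * ∫ x, η (z x) * (F2 (z x) * 1) < 0 := by
    have := strict H G C hρ ode hK
    simp only [mul_one]
    linarith
  obtain ⟨n, hn⟩ := (hlim.eventually (gt_mem_nhds hneg)).exists
  refine ⟨fun x => Real.exp (Lf phi (r n x)), X n, ?_, fun x => Real.exp_pos _, X1 n, X2 n, ?_⟩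
  · have hL : ContDiff ℝ 1 (Lf phi) := by
      rw [contDiff_one_iff_deriv]
      refine ⟨fun t => (Lf_deriv H t).differentiableAt, ?_⟩
      rw [show deriv (Lf phi) = fun t => t * phi (t ^ 2) from funext fun t => (Lf_deriv H t).deriv]
      exact continuous_id.mul (phi_cont H)
    exact Real.contDiff_exp.comp (hL.comp (r1 n))
  · obtain ⟨u, hu⟩ : ∃ u : E d → ℝ, u = fun x => Real.exp (Lf phi (r n x)) := ⟨_, rfl⟩
    have hu2 : ∀ x, u x ^ 2 = F2 (r n x) := by
      intro x
      simp only [hu, F2]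
      rw [← Real.exp_nat_mul]
      norm_num
    have hd : ∀ x, HasFDerivAt u (u x • ((r n x * phi (r n x ^ 2)) • fderiv ℝ (r n) x)) x := by
      intro x
      rw [hu]
      exact ((Lf_deriv H (r n x)).comp_hasFDerivAt x
        ((r1 n).differentiable one_ne_zero x).hasFDerivAt).exp
    have huC : ContDiff ℝ 1 u := by
      have hL : ContDiff ℝ 1 (Lf phi) := by
        rw [contDiff_one_iff_deriv]
        refine ⟨fun t => (Lf_deriv H t).differentiableAt, ?_⟩
        rw [show deriv (Lf phi) = fun t => t * phi (t ^ 2) from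
          funext fun t => (Lf_deriv H t).deriv]
        exact continuous_id.mul (phi_cont H)
      rw [hu]
      exact Real.contDiff_exp.comp (hL.comp (r1 n))
    rw [← hu]
    have hY : ContDiff ℝ 1 (fun y => u y ^ 2 • X n y) := (huC.pow 2).smul (X1 n)
    have cN : Continuous fun x => ‖fderiv ℝ u x‖ ^ 2 + K' * u x ^ 2 :=
      ((huC.continuous_fderiv one_ne_zero).norm.pow 2).add
        (continuous_const.mul (huC.continuous.pow 2))
    have cB : Continuous (divg fun y => u y ^ 2 • X n y) := by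
      unfold divg
      refine continuous_finsetSum _ fun i _ => ?_
      exact (EuclideanSpace.proj i : E d →L[ℝ] ℝ).continuous.comp
        ((hY.continuous_fderiv one_ne_zero).clm_apply continuous_const)
    have j1 : Integrable fun x => χ (z x) * (‖fderiv ℝ u x‖ ^ 2 + K' * u x ^ 2) :=
      int_mul G C.chi_cont (fun t => C.zero) cN
    have j2 : Integrable fun x => χ (z x) * divg (fun y => u y ^ 2 • X n y) x :=
      int_mul G C.chi_cont (fun t => C.zero) cB
    have j3 : Integrable fun x => χ (z x) * F1 (r n x) :=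
      int_mul G C.chi_cont (fun t => C.zero) (c1.comp (r1 n).continuous)
    have j4 : Integrable fun x => η (z x) * (F2 (r n x) * fderiv ℝ z x (X n x)) := by
      refine (int_mul G C.cont C.right (c2.comp (r1 n).continuous)).mono'
        ((C.cont.comp hzc).aestronglyMeasurable.mul
          ((c2.comp (r1 n).continuous).aestronglyMeasurable.mul (hfm n)))
        (ae_of_all _ fun x => ?_)
      rw [norm_mul, Real.norm_of_nonneg (C.nonneg _), norm_mul]
      refine mul_le_mul_of_nonneg_left ?_ (C.nonneg _)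
      have h1 : ‖F2 (r n x)‖ = F2 (r n x) := Real.norm_of_nonneg (Real.exp_pos _).le
      rw [h1]
      exact mul_le_of_le_one_right (Real.exp_pos _).le (hf1 n x)
    have e1 : ∫ x, χ (z x) * divg (fun y => u y ^ 2 • X n y) x =
        ∫ x, η (z x) * (F2 (r n x) * fderiv ℝ z x (X n x)) := by
      have h1 := ibp G C hY
      have h2 : ∀ x, χ (z x) * divg (fun y => u y ^ 2 • X n y) x +
          -η (z x) * fderiv ℝ z x (u x ^ 2 • X n x) =
          χ (z x) * divg (fun y => u y ^ 2 • X n y) x -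
            η (z x) * (F2 (r n x) * fderiv ℝ z x (X n x)) := by
        intro x
        rw [map_smul, smul_eq_mul, hu2]
        ring
      simp only [h2] at h1
      rw [integral_sub j2 j4] at h1
      linarith
    have e2 : ∫ x, χ (z x) * (‖fderiv ℝ u x‖ ^ 2 + K' * u x ^ 2) ≤
        ∫ x, χ (z x) * F1 (r n x) := by
      refine integral_mono j1 j3 fun x => ?_
      refine mul_le_mul_of_nonneg_left ?_ (C.chi_nonneg _)
      have h1 : ‖fderiv ℝ u x‖ ^ 2 ≤ (r n x * phi (r n x ^ 2)) ^ 2 * F2 (r n x) := by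
        rw [(hd x).fderiv, norm_smul, norm_smul, mul_pow, mul_pow, Real.norm_eq_abs,
          Real.norm_eq_abs, sq_abs, sq_abs, hu2]
        have h2 : ‖fderiv ℝ (r n) x‖ ^ 2 ≤ 1 := pow_le_one₀ (norm_nonneg _) (r2 n x)
        have h3 : 0 ≤ F2 (r n x) * (r n x * phi (r n x ^ 2)) ^ 2 :=
          mul_nonneg (Real.exp_pos _).le (sq_nonneg _)
        nlinarith
      have h4 : F1 (r n x) = (r n x * phi (r n x ^ 2)) ^ 2 * F2 (r n x) + K' * F2 (r n x) := by
        simp only [F1, F2]
        ring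
      rw [h4, hu2]
      linarith
    have e3 : ∫ x, χ (z x) * (‖fderiv ℝ u x‖ ^ 2 + K' * u x ^ 2 -
        a * divg (fun y => u y ^ 2 • X n y) x) =
        (∫ x, χ (z x) * (‖fderiv ℝ u x‖ ^ 2 + K' * u x ^ 2)) -
          a * ∫ x, χ (z x) * divg (fun y => u y ^ 2 • X n y) x := by
      rw [← integral_const_mul, ← integral_sub j1 (j2.const_mul a)]
      congr 1
      ext x
      ring
    change ∫ x, χ (z x) * (‖fderiv ℝ u x‖ ^ 2 + K' * u x ^ 2 -
        a * divg (fun y => u y ^ 2 • X n y) x) < 0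
    rw [e3, e1]
    linarith

end Pool.Agent.RobCirc
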