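import Pool.Agent.RobCirc.F
import Pool.Agent.Rob2.ZAtau
import Pool.Agent.Rob2.ZAscale

set_option autoImplicit false

/-!
# The Robin eigenvalue of a circumscribed domain
-/

open MeasureTheory Metric Set Filter Topology
open scoped Pointwise

namespace Pool.Agent.RobCirc

open Pool.Agent.Rob

variable {d : ℕ} {z : E d → ℝ} {ρ s0 R a K K' : ℝ} {χ η phi phi' : ℝ → ℝ}

theorem divg_cont {Y : E d → E d} (hY : ContDiff ℝ 1 Y) : Continuous (divg Y) := by
  unfold divg
  refine continuous_finsetSum _ fun i _ => ?_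
  exact (EuclideanSpace.proj i : E d →L[ℝ] ℝ).continuous.comp
    ((hY.continuous_fderiv one_ne_zero).clm_apply continuous_const)

theorem step (H : RadP R a phi phi') (G : Gau z ρ) (hρ : ρ ≤ R)
    (ode : ∀ t, 0 ≤ t → d * phi t + 2 * t * phi' t + t * phi t ^ 2 = K) (h0 : 0 < s0)
    (h1 : s0 < ρ) (hK0 : 0 ≤ K') (hK : K' < K) :
    robinP (-a) {x | z x < ρ} ≤ ((-((s0 / ρ) ^ 2 * K') : ℝ) : EReal) := by
  obtain ⟨χ, η, C⟩ := exists_cut h0 h1
  obtain ⟨u, X, hu, hu0, hX, hX1, hlt⟩ := exists_test H G C hρ ode hK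
  have hzc : Continuous z := G.lip.continuous
  have hr := G.rpos
  have hY : ContDiff ℝ 1 (fun y => u y ^ 2 • X y) := (hu.pow 2).smul hX
  have cN : Continuous fun x => ‖fderiv ℝ u x‖ ^ 2 := (hu.continuous_fderiv one_ne_zero).norm.pow 2
  have cM : Continuous fun x => u x ^ 2 := hu.continuous.pow 2
  have cB := divg_cont hY
  obtain ⟨s, hs0, hs1, hs⟩ := select G C h0 ((cN.add (cM.const_mul K')).sub (cB.const_mul a)) hlt
  have hsp : 0 < s := h0.trans hs0
  have hint : ∀ {f : E d → ℝ}, Continuous f → IntegrableOn f {x | z x < s} := fun {f} hf =>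
    (hf.continuousOn.integrableOn_compact (G.compact s)).mono_set fun x (hx : z x < s) => (hx.le : z x ≤ s)
  have hsplit : ∫ x in {x | z x < s}, (‖fderiv ℝ u x‖ ^ 2 + K' * u x ^ 2 -
      a * divg (fun y => u y ^ 2 • X y) x) =
      (∫ x in {x | z x < s}, ‖fderiv ℝ u x‖ ^ 2) + K' * (∫ x in {x | z x < s}, u x ^ 2) -
        a * ∫ x in {x | z x < s}, divg (fun y => u y ^ 2 • X y) x := by
    have j : IntegrableOn (fun x => ‖fderiv ℝ u x‖ ^ 2 + K' * u x ^ 2) {x | z x < s} :=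
      (hint cN).add ((hint cM).const_mul K')
    rw [integral_sub j ((hint cB).const_mul a),
      integral_add (hint cN) ((hint cM).const_mul K'), integral_const_mul, integral_const_mul]
  have hs' : (∫ x in {x | z x < s}, ‖fderiv ℝ u x‖ ^ 2) + K' * (∫ x in {x | z x < s}, u x ^ 2) -
        a * (∫ x in {x | z x < s}, divg (fun y => u y ^ 2 • X y) x) < 0 := by
    rw [← hsplit]
    exact hs
  have hM : 0 < ∫ x in {x | z x < s}, u x ^ 2 := by
    rw [setIntegral_pos_iff_support_of_nonneg_ae (ae_of_all _ fun x => sq_nonneg _) (hint cM)]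
    have h2 : Function.support (fun x => u x ^ 2) = univ := by
      ext x
      simp [(hu0 x).ne']
    rw [h2, univ_inter]
    refine (isOpen_lt hzc continuous_const).measure_pos volume ⟨0, ?_⟩
    change z 0 < s
    rw [G.zero]
    exact hsp
  have hN : 0 ≤ ∫ x in {x | z x < s}, ‖fderiv ℝ u x‖ ^ 2 :=
    integral_nonneg fun x => sq_nonneg _
  have ht : 0 < s / ρ := div_pos hsp hr
  have ht1 : s / ρ ≤ 1 := (div_le_one hr).2 hs1.le
  have ha : 0 ≤ a := H.apos.le
  have hq : qX (a / (s / ρ)) {x | z x < s} u X ≤ -K' := by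
    unfold qX
    rw [div_le_iff₀ hM]
    have h3 : (s / ρ) * ((∫ x in {x | z x < s}, ‖fderiv ℝ u x‖ ^ 2) +
        K' * ∫ x in {x | z x < s}, u x ^ 2) ≤
        (∫ x in {x | z x < s}, ‖fderiv ℝ u x‖ ^ 2) + K' * ∫ x in {x | z x < s}, u x ^ 2 :=
      mul_le_of_le_one_left (add_nonneg hN (mul_nonneg hK0 hM.le)) ht1
    have h4 : (s / ρ) * (((∫ x in {x | z x < s}, ‖fderiv ℝ u x‖ ^ 2) +
        K' * ∫ x in {x | z x < s}, u x ^ 2) - a / (s / ρ) *
          ∫ x in {x | z x < s}, divg (fun y => u y ^ 2 • X y) x) < 0 := by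
      have h5 : (s / ρ) * (a / (s / ρ) * ∫ x in {x | z x < s}, divg (fun y => u y ^ 2 • X y) x) =
          a * ∫ x in {x | z x < s}, divg (fun y => u y ^ 2 • X y) x := by
        rw [← mul_assoc, mul_div_cancel₀ _ ht.ne']
      rw [mul_sub, h5]
      linarith
    have h6 := neg_of_mul_neg_right h4 ht.le
    linarith
  have h7 : robinP (-(a / (s / ρ))) ((s / ρ) • {x | z x < ρ}) ≤ ((-K' : ℝ) : EReal) := by
    rw [← G.level hsp]
    exact (robinP_le_qX (div_nonneg ha ht.le) hu hM hX hX1).trans (EReal.coe_le_coe_iff.2 hq)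
  refine (robinP_scale ha ht h7).trans (EReal.coe_le_coe_iff.2 ?_)
  have h8 : (s0 / ρ) ^ 2 ≤ (s / ρ) ^ 2 := by gcongr
  nlinarith

theorem gauge_le (H : RadP R a phi phi') (G : Gau z ρ) (hρ : ρ ≤ R)
    (ode : ∀ t, 0 ≤ t → d * phi t + 2 * t * phi' t + t * phi t ^ 2 = K) (hK : 0 < K) :
    robinP (-a) {x | z x < ρ} ≤ ((-K : ℝ) : EReal) := by
  have hr := G.rpos
  have h1 : ∀ θ : ℝ, 0 < θ → θ < 1 →
      robinP (-a) {x | z x < ρ} ≤ ((-(θ ^ 2 * (θ * K)) : ℝ) : EReal) := by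
    intro θ h0 h1
    have h2 := step H G hρ ode (s0 := θ * ρ) (K' := θ * K) (by positivity)
      (mul_lt_of_lt_one_left hr h1) (by positivity) (mul_lt_of_lt_one_left hK h1)
    rwa [mul_div_cancel_right₀ _ hr.ne'] at h2
  have h2 : Tendsto (fun θ : ℝ => ((-(θ ^ 2 * (θ * K)) : ℝ) : EReal)) (𝓝[<] 1)
      (𝓝 ((-K : ℝ) : EReal)) := by
    have h3 : Continuous fun θ : ℝ => -(θ ^ 2 * (θ * K)) := by fun_prop
    have h4 := (continuous_coe_real_ereal.comp h3).tendsto 1
    simp only [Function.comp_apply, one_pow, one_mul] at h4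
    exact h4.mono_left nhdsWithin_le_nhds
  refine ge_of_tendsto h2 ?_
  have h3 : ∀ᶠ θ : ℝ in 𝓝[<] 1, 0 < θ :=
    (eventually_gt_nhds (show (0 : ℝ) < 1 by norm_num)).filter_mono nhdsWithin_le_nhds
  filter_upwards [h3, self_mem_nhdsWithin] with θ h4 h5
  exact h1 θ h4 h5

/-- the comparison with the ball -/
theorem gauge_ball (hd : 1 ≤ d) (G : Gau z ρ) (hR : 0 < R)
    (hvol : volume (ball (0 : E d) R) = volume {x | z x < ρ}) {α : ℝ} (hα : α < 0) :
    ∃ K : ℝ, robinP α {x | z x < ρ} ≤ ((-K : ℝ) : EReal) ∧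
      ((-K : ℝ) : EReal) ≤ robinP α (ball (0 : E d) R) := by
  have hr := G.rpos
  have hρ : ρ ≤ R := by
    by_contra hc
    have hc := not_le.1 hc
    have h1 : ball (0 : E d) ρ ⊆ {x | z x < ρ} := by
      intro x hx
      rw [mem_ball_zero_iff] at hx
      have h2 := G.lip.dist_le_mul x 0
      rw [G.zero, Real.dist_eq, sub_zero, dist_zero_right, NNReal.coe_one, one_mul] at h2
      exact (le_abs_self _).trans_lt (h2.trans_lt hx)
    have h2 := measure_mono (μ := (volume : Measure (E d))) h1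
    have : Nonempty (Fin d) := ⟨⟨0, hd⟩⟩
    have : Nontrivial (E d) := inferInstance
    rw [← hvol, Measure.addHaar_ball _ _ hr.le, Measure.addHaar_ball _ _ hR.le] at h2
    have h3 : volume (ball (0 : E d) 1) ≠ 0 := (measure_ball_pos _ _ one_pos).ne'
    have h4 : volume (ball (0 : E d) 1) ≠ ⊤ := measure_ball_lt_top.ne
    rw [ENNReal.mul_le_mul_iff_left h3 h4, ENNReal.ofReal_le_ofReal_iff (by positivity),
      finrank_euclideanSpace, Fintype.card_fin] at h2
    exact absurd h2 (not_le.2 (pow_lt_pow_left₀ hc hR.le (by omega)))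
  obtain ⟨τ, hτ, hτ'⟩ := exists_tau hd (A := -α * R) (by nlinarith)
  have ha : 2 * τ * deriv (Phi d) τ / (R * Phi d τ) = -α := by
    rw [mul_comm R, ← div_div, hτ', mul_div_cancel_right₀ _ hR.ne']
  obtain ⟨phi, phi', H, ode⟩ := exists_radP hd hR hτ
  have h1 := ball_side hd hR hτ
  rw [ha] at H h1
  rw [neg_neg] at h1
  have h2 := gauge_le H G hρ ode (by positivity)
  rw [neg_neg] at h2
  exact ⟨_, h2, h1⟩

end Pool.Agent.RobCirc
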