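import Pool.Agent.RobCirc.G
import Pool.Agent.Rob2.Scale

set_option autoImplicit false

/-!
# Intersections of half-spaces at the same distance from a point
-/

open MeasureTheory Metric Set Filter Topology

namespace Pool.Agent.RobCirc

open Pool.Agent.Rob

variable {d : ℕ}

/-- the support function of a set -/
noncomputable def sup (N : Set (E d)) (x : E d) : ℝ := sSup ((fun n => inner ℝ n x) '' N)

variable {N : Set (E d)}

theorem sup_bdd (hN : ∀ n ∈ N, ‖n‖ ≤ 1) (x : E d) :
    BddAbove ((fun n => inner ℝ n x) '' N) := by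
  refine ⟨‖x‖, ?_⟩
  rintro _ ⟨n, hn, rfl⟩
  exact (real_inner_le_norm n x).trans (mul_le_of_le_one_left (norm_nonneg _) (hN n hn))

theorem le_sup (hN : ∀ n ∈ N, ‖n‖ ≤ 1) {n : E d} (hn : n ∈ N) (x : E d) :
    inner ℝ n x ≤ sup N x := le_csSup (sup_bdd hN x) ⟨n, hn, rfl⟩

theorem sup_le (hne : N.Nonempty) {x : E d} {c : ℝ} (h : ∀ n ∈ N, inner ℝ n x ≤ c) :
    sup N x ≤ c := by
  refine csSup_le (hne.image _) ?_
  rintro _ ⟨n, hn, rfl⟩
  exact h n hn

theorem sup_lip (hN : ∀ n ∈ N, ‖n‖ ≤ 1) (hne : N.Nonempty) : LipschitzWith 1 (sup N) := by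
  refine LipschitzWith.of_le_add fun x y => sup_le hne fun n hn => ?_
  have h1 := le_sup hN hn y
  have h2 : inner ℝ n x = inner ℝ n y + inner ℝ n (x - y) := by rw [inner_sub_right]; ring
  have h3 : inner ℝ n (x - y) ≤ dist x y := by
    rw [dist_eq_norm]
    exact (real_inner_le_norm _ _).trans (mul_le_of_le_one_left (norm_nonneg _) (hN n hn))
  linarith

theorem sup_hom (t : ℝ) (ht : 0 ≤ t) (x : E d) : sup N (t • x) = t * sup N x := by
  unfold sup
  rw [← smul_eq_mul, ← Real.sSup_smul_of_nonneg ht]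
  congr 1
  ext y
  constructor
  · rintro ⟨n, hn, rfl⟩
    refine ⟨inner ℝ n x, ⟨n, hn, rfl⟩, ?_⟩
    simp [inner_smul_right]
  · rintro ⟨_, ⟨n, hn, rfl⟩, rfl⟩
    exact ⟨n, hn, by simp [inner_smul_right]⟩

/-- the supremum over the closure is attained -/
theorem sup_att (hN : ∀ n ∈ N, ‖n‖ = 1) (hne : N.Nonempty) (x : E d) :
    ∃ n : E d, ‖n‖ = 1 ∧ inner ℝ n x = sup N x ∧ ∀ y, inner ℝ n y ≤ sup N y := by
  have hc : IsCompact (closure N) := by
    refine Metric.isCompact_of_isClosed_isBounded isClosed_closure ?_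
    refine (isBounded_closedBall (x := (0 : E d)) (r := 1)).subset ?_
    refine closure_minimal (fun n hn => ?_) isClosed_closedBall
    rw [mem_closedBall_zero_iff, hN n hn]
  have hle : ∀ n ∈ closure N, ∀ y, inner ℝ n y ≤ sup N y := by
    intro n hn y
    have h1 : IsClosed {n : E d | inner ℝ n y ≤ sup N y} :=
      isClosed_le (continuous_id.inner continuous_const) continuous_const
    exact closure_minimal (fun m hm => le_sup (fun n hn => (hN n hn).le) hm y) h1 hn
  have h1n : ∀ n ∈ closure N, ‖n‖ = 1 := by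
    intro n hn
    have h1 : IsClosed {n : E d | ‖n‖ = 1} := isClosed_eq continuous_norm continuous_const
    exact closure_minimal (fun m hm => hN m hm) h1 hn
  obtain ⟨n, hn, hmax⟩ := hc.exists_isMaxOn (hne.mono subset_closure)
    (f := fun n : E d => inner ℝ n x) (continuous_id.inner continuous_const).continuousOn
  refine ⟨n, h1n n hn, le_antisymm (hle n hn x) ?_, hle n hn⟩
  exact sup_le hne fun m hm => hmax (subset_closure hm)

theorem sup_gau (hN : ∀ n ∈ N, ‖n‖ = 1) (hne : N.Nonempty) {ρ : ℝ} (hρ : 0 < ρ)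
    (hb : Bornology.IsBounded {x | sup N x < ρ}) : Gau (sup N) ρ := by
  have hN1 : ∀ n ∈ N, ‖n‖ ≤ 1 := fun n hn => (hN n hn).le
  refine ⟨hρ, sup_lip hN1 hne, fun t ht x => sup_hom t ht x, ?_, hb⟩
  filter_upwards [(sup_lip hN1 hne).ae_differentiableAt (μ := (volume : Measure (E d)))] with x hx
  refine ⟨hx, le_antisymm ?_ ?_⟩
  · exact_mod_cast norm_fderiv_le_of_lipschitz ℝ (sup_lip hN1 hne)
  obtain ⟨n, hn1, hn2, hn3⟩ := sup_att hN hne x
  have h1 : IsLocalMin (fun y => sup N y - inner ℝ n y) x := by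
    refine Filter.Eventually.of_forall fun y => ?_
    have := hn3 y
    simp only
    linarith
  have h2 : HasFDerivAt (fun y => sup N y - inner ℝ n y) (fderiv ℝ (sup N) x - innerSL ℝ n) x :=
    hx.hasFDerivAt.sub (innerSL ℝ n).hasFDerivAt
  have h3 := h1.hasFDerivAt_eq_zero h2
  have h4 : fderiv ℝ (sup N) x n = 1 := by
    have h5 := congrArg (fun L : E d →L[ℝ] ℝ => L n) h3
    simp only [_root_.sub_apply, innerSL_apply_apply,
      _root_.zero_apply, real_inner_self_eq_norm_sq, hn1] at h5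
    linarith
  have h6 := (fderiv ℝ (sup N) x).le_opNorm n
  rw [h4, hn1, mul_one, norm_one] at h6
  exact h6

theorem interior_eq (hN : ∀ n ∈ N, ‖n‖ = 1) (hne : N.Nonempty) {ρ : ℝ} (hρ : 0 < ρ) (c : E d) :
    interior {x | ∀ n ∈ N, inner ℝ n (x - c) ≤ ρ} = {x | sup N (x - c) < ρ} := by
  have hN1 : ∀ n ∈ N, ‖n‖ ≤ 1 := fun n hn => (hN n hn).le
  have hc : Continuous fun x : E d => sup N (x - c) :=
    (sup_lip hN1 hne).continuous.comp (continuous_id.sub continuous_const)
  apply Set.Subset.antisymm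
  · intro x hx
    rw [mem_interior_iff_mem_nhds] at hx
    have h1 : Tendsto (fun t : ℝ => c + (1 + t) • (x - c)) (𝓝 0) (𝓝 x) := by
      have : Continuous fun t : ℝ => c + (1 + t) • (x - c) := by fun_prop
      have h2 := this.tendsto 0
      simpa using h2
    have h2 := (h1.eventually hx).filter_mono (nhdsWithin_le_nhds (s := Ioi (0 : ℝ)))
    obtain ⟨t, ht, ht0⟩ := (h2.and self_mem_nhdsWithin).exists
    have ht0 : 0 < t := ht0
    have h3 : sup N ((1 + t) • (x - c)) ≤ ρ := by
      refine sup_le hne fun n hn => ?_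
      have := ht n hn
      rwa [add_sub_cancel_left] at this
    rw [sup_hom _ (by linarith)] at h3
    change sup N (x - c) < ρ
    by_contra h4
    have h4 := not_lt.1 h4
    nlinarith
  · refine interior_maximal (fun x hx n hn => ?_) (isOpen_lt hc continuous_const)
    exact (le_sup hN1 hn _).trans (le_of_lt hx)

/-- the interior of an intersection of half-spaces `⟨n, x - c⟩ ≤ ρ`, `n` unit vectors -/
theorem main (hd : 1 ≤ d) (hN : ∀ n ∈ N, ‖n‖ = 1) {ρ R : ℝ} (hρ : 0 < ρ)
    (c : E d) {Ω : Set (E d)} (hΩ : Ω = interior {x | ∀ n ∈ N, inner ℝ n (x - c) ≤ ρ})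
    (hb : Bornology.IsBounded Ω) (hR : 0 < R) (hvol : volume (ball (0 : E d) R) = volume Ω)
    {α : ℝ} (hα : α < 0) : robinP α Ω ≤ robinP α (ball (0 : E d) R) := by
  have hnf : Nonempty (Fin d) := ⟨⟨0, hd⟩⟩
  have hnt : Nontrivial (E d) := inferInstance
  have hne : N.Nonempty := by
    by_contra h0
    rw [not_nonempty_iff_eq_empty] at h0
    subst h0
    simp only [mem_empty_iff_false, false_implies, implies_true, ofPred_true, interior_univ] at hΩ
    rw [hΩ] at hb
    exact NormedSpace.unbounded_univ ℝ (E d) hb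
  rw [interior_eq hN hne hρ c] at hΩ
  have him : (fun x => x - c) '' Ω = {x | sup N x < ρ} := by
    rw [hΩ]
    ext y
    constructor
    · rintro ⟨x, hx, rfl⟩
      exact hx
    · intro hy
      exact ⟨y + c, by change sup N (y + c - c) < ρ; rw [add_sub_cancel_right]; exact hy,
        by simp⟩
  have hb' : Bornology.IsBounded {x | sup N x < ρ} := by
    rw [← him]
    obtain ⟨M, hM⟩ := hb.subset_closedBall 0
    refine (isBounded_closedBall (x := (0 : E d)) (r := M + ‖c‖)).subset ?_
    rintro _ ⟨x, hx, rfl⟩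
    have := hM hx
    rw [mem_closedBall_zero_iff] at this ⊢
    exact (norm_sub_le _ _).trans (by linarith)
  have hG := sup_gau hN hne hρ hb'
  have hv : volume Ω = volume {x | sup N x < ρ} := by
    rw [hΩ]
    have h := measure_preimage_add_right (volume : Measure (E d)) (-c) {x | sup N x < ρ}
    simp only [← sub_eq_add_neg] at h
    exact h
  obtain ⟨K, h1, h2⟩ := gauge_ball hd hG hR (hvol.trans hv) hα
  refine le_trans ?_ h2
  have h3 := robinP_translate (a := -α) (Ω := Ω) (by linarith) c (c := -K)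
    (by rw [him, neg_neg]; exact h1)
  rwa [neg_neg] at h3

end Pool.Agent.RobCirc
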